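import Mathlib

set_option autoImplicit false

/-!
# Menger game and neighbourhood assignment game on Lindelöf P-spaces
-/

namespace Pool.Agent.KS6_21.PONG

open Set Filter Topology

/-- Open covers. -/
def OCov {X : Type} [TopologicalSpace X] (𝒰 : Set (Set X)) : Prop :=
  (∀ U ∈ 𝒰, IsOpen U) ∧ ⋃₀ 𝒰 = univ

/-- Menger spaces. -/
def Menger (X : Type) [TopologicalSpace X] : Prop :=
  ∀ 𝒰 : ℕ → Set (Set X), (∀ n, OCov (𝒰 n)) →
    ∃ F : ℕ → Set (Set X), (∀ n, (F n).Finite ∧ F n ⊆ 𝒰 n) ∧ ⋃₀ (⋃ n, F n) = univ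

/-- Bob has a winning strategy in the Menger game: `σ n` answers the covers `𝒰 0, …, 𝒰 n` of
Alice in round `n`. -/
def BobWinsM (X : Type) [TopologicalSpace X] : Prop :=
  ∃ σ : (n : ℕ) → (Fin (n + 1) → Set (Set X)) → Set (Set X),
    ∀ 𝒰 : ℕ → Set (Set X), (∀ n, OCov (𝒰 n)) →
      (∀ n, (σ n (fun i => 𝒰 i)).Finite ∧ σ n (fun i => 𝒰 i) ⊆ 𝒰 n) ∧
      ⋃₀ (⋃ n, σ n (fun i => 𝒰 i)) = univ

/-- A move of Alice in the neighbourhood assignment game: a set `Y` and an assignment `V`. -/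
abbrev Move (X : Type) := Set X × (X → Set X)

/-- The part of the space not covered before round `n`. -/
def Rest {X : Type} (A : ℕ → Move X) (D : ℕ → Set X) (n : ℕ) : Set X :=
  (⋃ j < n, ⋃ x ∈ D j, (A j).2 x)ᶜ

/-- Alice's move in round `n` is legal. -/
def AliceLegal {X : Type} [TopologicalSpace X] (A : ℕ → Move X) (D : ℕ → Set X) (n : ℕ) : Prop :=
  (∀ x ∈ (A n).1, IsOpen ((A n).2 x) ∧ x ∈ (A n).2 x) ∧ (A n).1 ⊆ Rest A D n ∧
    Rest A D n ⊆ ⋃ x ∈ (A n).1, (A n).2 x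

/-- Bob's move in round `n` is legal. -/
def BobLegal {X : Type} [TopologicalSpace X] (A : ℕ → Move X) (D : ℕ → Set X) (n : ℕ) : Prop :=
  D n ⊆ (A n).1 ∧ IsClosed (D n) ∧ DiscreteTopology (D n)

/-- Bob's choices cover the space. -/
def Covers {X : Type} (A : ℕ → Move X) (D : ℕ → Set X) : Prop := ⋃ n, ⋃ x ∈ D n, (A n).2 x = univ

/-- Bob has a winning strategy in the neighbourhood assignment game: `σ n` answers the moves
`A 0, …, A n` of Alice and his own moves `D 0, …, D (n-1)`. -/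
def BobWinsP (X : Type) [TopologicalSpace X] : Prop :=
  ∃ σ : (n : ℕ) → (Fin (n + 1) → Move X) → (Fin n → Set X) → Set X,
    ∀ (A : ℕ → Move X) (D : ℕ → Set X), (∀ n, D n = σ n (fun i => A i) (fun i => D i)) →
      (∀ n, (∀ k ≤ n, AliceLegal A D k) → BobLegal A D n) ∧ ((∀ n, AliceLegal A D n) → Covers A D)

/-- `P`-spaces: countable intersections of open sets are open. -/
def PSp (X : Type) [TopologicalSpace X] : Prop :=
  ∀ S : Set (Set X), S.Countable → (∀ U ∈ S, IsOpen U) → IsOpen (⋂₀ S)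

variable {X : Type} [TopologicalSpace X]

theorem closed_cnt [T1Space X] (hP : PSp X) {C : Set X} (hC : C.Countable) : IsClosed C := by
  have h : Cᶜ = ⋂₀ ((fun x => ({x} : Set X)ᶜ) '' C) := by
    ext z
    simp only [mem_compl_iff, sInter_image, mem_iInter, mem_singleton_iff]
    exact ⟨fun h x hx e => h (e ▸ hx), fun h hz => h z hz rfl⟩
  rw [← isOpen_compl_iff, h]
  exact hP _ (hC.image _) (by rintro _ ⟨x, _, rfl⟩; exact isOpen_compl_singleton)

theorem disc_cnt [T1Space X] (hP : PSp X) {C : Set X} (hC : C.Countable) : DiscreteTopology C := by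
  rw [discreteTopology_iff_isOpen_singleton]
  intro x
  refine ⟨(C \ {x.1})ᶜ, (closed_cnt hP (hC.mono sdiff_subset)).isOpen_compl, ?_⟩
  ext z
  simp only [mem_preimage, mem_compl_iff, Set.mem_sdiff, mem_singleton_iff, not_and, not_not]
  exact ⟨fun h => Subtype.ext (h z.2), fun h _ => congrArg Subtype.val h⟩

/-- Every Lindelöf `P`-space is Menger, with one set in every round. -/
theorem menger_of [LindelofSpace X] (hP : PSp X) (𝒰 : ℕ → Set (Set X)) (h : ∀ n, OCov (𝒰 n)) :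
    ∃ F : ℕ → Set (Set X), (∀ n, (F n).Subsingleton ∧ F n ⊆ 𝒰 n) ∧ ⋃₀ (⋃ n, F n) = univ := by
  choose U U1 U2 using fun n x => (h n).2.symm.subset (mem_univ x)
  have ho : ∀ x, IsOpen (⋂₀ range fun n => U n x) := fun x =>
    hP _ (countable_range _) (by rintro _ ⟨n, rfl⟩; exact (h n).1 _ (U1 n x))
  obtain ⟨r, hr, hc⟩ := isLindelof_univ.elim_countable_subcover (fun x => ⋂₀ range fun n => U n x) ho
    (fun x _ => mem_iUnion.2 ⟨x, fun V ⟨n, hn⟩ => hn ▸ U2 n x⟩)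
  rcases r.eq_empty_or_nonempty with rfl | hne
  · refine ⟨fun _ => ∅, fun n => ⟨subsingleton_empty, empty_subset _⟩, ?_⟩
    have : (univ : Set X) = ∅ := by
      apply Set.eq_empty_of_subset_empty
      simpa using hc
    rw [this]; simp
  · obtain ⟨x, hx⟩ := hr.exists_eq_range hne
    refine ⟨fun n => {U n (x n)}, fun n => ⟨subsingleton_singleton, singleton_subset_iff.2 (U1 _ _)⟩,
      eq_univ_of_forall fun z => ?_⟩
    obtain ⟨y, hy, hz⟩ := mem_iUnion₂.1 (hc (mem_univ z))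
    obtain ⟨n, rfl⟩ : ∃ n, x n = y := by rw [hx] at hy; exact hy
    exact ⟨_, mem_iUnion.2 ⟨n, rfl⟩, hz _ ⟨n, rfl⟩⟩

theorem menger [LindelofSpace X] (hP : PSp X) : Menger X := by
  intro 𝒰 h
  obtain ⟨F, h1, h2⟩ := menger_of hP 𝒰 h
  exact ⟨F, fun n => ⟨(h1 n).1.finite, (h1 n).2⟩, h2⟩

/-- On a `T₁` Lindelöf `P`-space Bob wins the neighbourhood assignment game in the first round. -/
theorem bobWinsP [T1Space X] [LindelofSpace X] (hP : PSp X) : BobWinsP X := by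
  have H : ∀ a : Move X, ∃ D ⊆ a.1, D.Countable ∧ ((∀ x ∈ a.1, IsOpen (a.2 x)) →
      univ ⊆ ⋃ x ∈ a.1, a.2 x → univ ⊆ ⋃ x ∈ D, a.2 x) := fun a => by
    by_cases e : (∀ x ∈ a.1, IsOpen (a.2 x)) ∧ univ ⊆ ⋃ x ∈ a.1, a.2 x
    · obtain ⟨D, h1, h2, h3⟩ := isLindelof_univ.elim_countable_subcover_image e.1 e.2
      exact ⟨D, h1, h2, fun _ _ => h3⟩
    · exact ⟨∅, empty_subset _, countable_empty, fun e1 e2 => absurd ⟨e1, e2⟩ e⟩
  choose d d1 d2 d3 using H
  refine ⟨fun n a _ => d (a (Fin.last n)), fun A D hD => ⟨fun n _ => ?_, fun h => ?_⟩⟩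
  · have e : D n = d (A n) := hD n
    exact ⟨e ▸ d1 _, closed_cnt hP (e ▸ d2 _), disc_cnt hP (e ▸ d2 _)⟩
  · have e : D 0 = d (A 0) := hD 0
    exact univ_subset_iff.1 ((d3 _ (fun x hx => ((h 0).1 x hx).1)
      (by simpa [Rest] using (h 0).2.2)).trans (e ▸ subset_iUnion (fun n => ⋃ x ∈ D n, (A n).2 x) 0))

/-- On a countable space Bob wins the Menger game. -/
theorem bobWinsM_of_countable [Countable X] : BobWinsM X := by
  classical
  rcases isEmpty_or_nonempty X with he | hne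
  · refine ⟨fun _ _ => ∅, fun 𝒰 _ => ⟨fun n => ⟨finite_empty, empty_subset _⟩, ?_⟩⟩
    exact eq_univ_of_forall fun z => he.elim z
  · obtain ⟨x, hx⟩ := exists_surjective_nat X
    refine ⟨fun n u => if h : ∃ U ∈ u (Fin.last n), x n ∈ U then {h.choose} else ∅, fun 𝒰 h => ?_⟩
    have key : ∀ n, ∃ U ∈ 𝒰 n, x n ∈ U := fun n => (h n).2.symm.subset (mem_univ (x n))
    have e : ∀ n, (if h : ∃ U ∈ (fun i : Fin (n + 1) => 𝒰 i) (Fin.last n), x n ∈ U then
        ({h.choose} : Set (Set X)) else ∅) = {(key n).choose} := fun n => dif_pos (key n)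
    refine ⟨fun n => ?_, eq_univ_of_forall fun z => ?_⟩
    · show (if h : ∃ U ∈ (fun i : Fin (n + 1) => 𝒰 i) (Fin.last n), x n ∈ U then
        ({h.choose} : Set (Set X)) else ∅).Finite ∧ (if h : ∃ U ∈ (fun i : Fin (n + 1) => 𝒰 i)
          (Fin.last n), x n ∈ U then ({h.choose} : Set (Set X)) else ∅) ⊆ 𝒰 n
      rw [e]
      exact ⟨finite_singleton _, singleton_subset_iff.2 (key n).choose_spec.1⟩
    · obtain ⟨n, rfl⟩ := hx z
      refine ⟨(key n).choose, mem_iUnion.2 ⟨n, ?_⟩, (key n).choose_spec.2⟩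
      show (key n).choose ∈ (if h : ∃ U ∈ (fun i : Fin (n + 1) => 𝒰 i) (Fin.last n), x n ∈ U then
        ({h.choose} : Set (Set X)) else ∅)
      rw [e]; rfl

/-- Bob's winning strategies in the Menger game are inherited by closed subspaces. -/
theorem bobWinsM_of_closed {A : Type} [TopologicalSpace A] {f : A → X} (hf : IsClosedEmbedding f)
    (h : BobWinsM X) : BobWinsM A := by
  obtain ⟨σ, hσ⟩ := h
  let L : Set (Set A) → Set (Set X) := fun 𝒰 => {U | IsOpen U ∧ (f ⁻¹' U ∈ 𝒰 ∨ U = (range f)ᶜ)}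
  refine ⟨fun n u => {V | V ∈ u (Fin.last n) ∧ ∃ U ∈ σ n (fun i => L (u i)), V = f ⁻¹' U},
    fun 𝒰 h => ?_⟩
  have hL : ∀ n, OCov (L (𝒰 n)) := fun n => by
    refine ⟨fun U hU => hU.1, eq_univ_of_forall fun z => ?_⟩
    by_cases hz : z ∈ range f
    · obtain ⟨a, rfl⟩ := hz
      obtain ⟨V, hV, ha⟩ := (h n).2.symm.subset (mem_univ a)
      obtain ⟨U, hU, hUV⟩ := hf.isInducing.isOpen_iff.1 ((h n).1 V hV)
      exact ⟨U, ⟨hU, Or.inl (hUV ▸ hV)⟩, by rw [← hUV] at ha; exact ha⟩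
    · exact ⟨(range f)ᶜ, ⟨hf.isClosed_range.isOpen_compl, Or.inr rfl⟩, hz⟩
  obtain ⟨h1, h2⟩ := hσ (fun n => L (𝒰 n)) hL
  refine ⟨fun n => ⟨?_, fun V hV => hV.1⟩, eq_univ_of_forall fun a => ?_⟩
  · refine ((h1 n).1.image (fun U => f ⁻¹' U)).subset ?_
    rintro V ⟨_, U, hU, rfl⟩
    exact ⟨U, hU, rfl⟩
  · obtain ⟨U, hU, ha⟩ := h2.symm.subset (mem_univ (f a))
    obtain ⟨n, hn⟩ := mem_iUnion.1 hU
    refine ⟨f ⁻¹' U, mem_iUnion.2 ⟨n, ?_, U, hn, rfl⟩, ha⟩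
    rcases ((h1 n).2 hn).2 with h3 | h3
    · exact h3
    · rw [h3] at ha
      exact absurd (mem_range_self a) ha

end Pool.Agent.KS6_21.PONG
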