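import Pool.Agent.KS6_21.PONG.Gen
import Pool.Graph.R_pool_sql_team_8f841797.H30.Lad

set_option autoImplicit false

namespace Pool.Agent.KS6_21.PONG

open Set Filter Topology Cardinal

/-- every point has a base of clopen neighbourhoods -/
def ZeroDim (X : Type) [TopologicalSpace X] : Prop :=
  ∀ U : Set X, IsOpen U → ∀ x ∈ U, ∃ V : Set X, IsClopen V ∧ x ∈ V ∧ V ⊆ U

/-! ### the one-point Lindelöfication of a discrete set -/

/-- the one-point Lindelöfication of the discrete space `K` -/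
inductive OL (K : Type) : Type
  | inf : OL K
  | el : K → OL K

instance (K : Type) : TopologicalSpace (OL K) where
  IsOpen U := OL.inf ∈ U → Uᶜ.Countable
  isOpen_univ := fun _ => by simp
  isOpen_inter U V h1 h2 h := by
    rw [compl_inter]; exact (h1 h.1).union (h2 h.2)
  isOpen_sUnion S hS h := by
    obtain ⟨U, hU, h⟩ := h
    exact (hS U hU h).mono (compl_subset_compl.2 (subset_sUnion_of_mem hU))

theorem isOpen_OL {K : Type} (U : Set (OL K)) :
    IsOpen U ↔ (OL.inf ∈ U → Uᶜ.Countable) := Iff.rfl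

theorem clopen_OL {K : Type} {U : Set (OL K)} (h : IsOpen U) (hn : OL.inf ∈ U) :
    IsClopen U := ⟨⟨(isOpen_OL _).2 fun e => absurd hn e⟩, h⟩

theorem clopen_some {K : Type} (a : K) : IsClopen ({OL.el a} : Set (OL K)) := by
  refine ⟨⟨(isOpen_OL _).2 fun _ => ?_⟩, (isOpen_OL _).2 fun e => ?_⟩
  · rw [compl_compl]; exact countable_singleton _
  · exact absurd e (by simp)

theorem zd_OL (K : Type) : ZeroDim (OL K) := by
  intro U hU x hx
  rcases x with _ | a
  · exact ⟨U, clopen_OL hU hx, hx, Subset.rfl⟩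
  · exact ⟨_, clopen_some a, mem_singleton _, singleton_subset_iff.2 hx⟩

instance (K : Type) : T2Space (OL K) := by
  refine ⟨fun x y h => ?_⟩
  rcases x with _ | a
  · rcases y with _ | b
    · exact absurd rfl h
    · exact ⟨_, _, (clopen_some b).compl.isOpen, (clopen_some b).isOpen, h, rfl, disjoint_compl_left⟩
  · exact ⟨_, _, (clopen_some a).isOpen, (clopen_some a).compl.isOpen, rfl, h.symm, disjoint_compl_right⟩

theorem psp_OL (K : Type) : PSp (OL K) := by
  intro S hS h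
  rw [isOpen_OL]
  intro hn
  rw [compl_sInter]
  refine Countable.sUnion (hS.image _) ?_
  rintro _ ⟨U, hU, rfl⟩
  exact h U hU (hn U hU)

instance (K : Type) : LindelofSpace (OL K) := by
  refine ⟨isLindelof_of_countable_subcover fun {ι} U hU hc => ?_⟩
  obtain ⟨i, hi⟩ := mem_iUnion.1 (hc (mem_univ OL.inf))
  choose j hj using fun x : OL K => mem_iUnion.1 (hc (mem_univ x))
  refine ⟨insert i (j '' (U i)ᶜ), ((hU i hi).image j).insert i, fun x _ => ?_⟩
  by_cases hx : x ∈ U i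
  · exact mem_biUnion (mem_insert _ _) hx
  · exact mem_biUnion (mem_insert_of_mem _ (mem_image_of_mem _ hx)) (hj x)

theorem mk_OL (K : Type) : #(OL K) = #K + 1 := by
  rw [← mk_option]
  refine mk_congr ⟨fun x => match x with | .inf => none | .el a => some a,
    fun y => match y with | none => .inf | some a => .el a, ?_, ?_⟩
  · rintro (_ | a) <;> rfl
  · rintro (_ | a) <;> rfl

/-! ### sums -/

theorem psp_sum {X Y : Type} [TopologicalSpace X] [TopologicalSpace Y] (hX : PSp X) (hY : PSp Y) :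
    PSp (X ⊕ Y) := by
  intro S hS h
  rw [isOpen_sum_iff]
  constructor
  · have e : (Sum.inl : X → X ⊕ Y) ⁻¹' ⋂₀ S = ⋂₀ ((fun U => Sum.inl ⁻¹' U) '' S) := by
      rw [sInter_image, preimage_sInter]
    rw [e]
    refine hX _ (hS.image _) ?_
    rintro _ ⟨U, hU, rfl⟩
    exact (isOpen_sum_iff.1 (h U hU)).1
  · have e : (Sum.inr : Y → X ⊕ Y) ⁻¹' ⋂₀ S = ⋂₀ ((fun U => Sum.inr ⁻¹' U) '' S) := by
      rw [sInter_image, preimage_sInter]
    rw [e]
    refine hY _ (hS.image _) ?_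
    rintro _ ⟨U, hU, rfl⟩
    exact (isOpen_sum_iff.1 (h U hU)).2

theorem zd_sum {X Y : Type} [TopologicalSpace X] [TopologicalSpace Y] (hX : ZeroDim X)
    (hY : ZeroDim Y) : ZeroDim (X ⊕ Y) := by
  intro U hU z hz
  rcases z with x | y
  · obtain ⟨V, h1, h2, h3⟩ := hX _ (isOpen_sum_iff.1 hU).1 x hz
    exact ⟨Sum.inl '' V, ⟨IsClosedEmbedding.inl.isClosedMap _ h1.1, isOpenMap_inl _ h1.2⟩,
      mem_image_of_mem _ h2, image_subset_iff.2 h3⟩
  · obtain ⟨V, h1, h2, h3⟩ := hY _ (isOpen_sum_iff.1 hU).2 y hz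
    exact ⟨Sum.inr '' V, ⟨IsClosedEmbedding.inr.isClosedMap _ h1.1, isOpenMap_inr _ h1.2⟩,
      mem_image_of_mem _ h2, image_subset_iff.2 h3⟩

/-! ### the space of ladders -/

open Pool.Agent.H30.Lad Pool.Agent.H30.Spl

theorem psp_P : PSp P := by
  intro S hS h x hx
  choose! a ha using fun U (hU : U ∈ S) => h U hU x (hx U hU)
  obtain ⟨b, hb⟩ := W1_bdd (hS.image a)
  exact ⟨b, fun z hz U hU => ha U hU (N_anti x (hb _ ⟨U, hU, rfl⟩).le hz)⟩

instance : LindelofSpace P := by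
  refine ⟨isLindelof_of_countable_subcover fun {ι} U hU hc => ?_⟩
  choose j hj using fun x : P => mem_iUnion.1 (hc (mem_univ x))
  choose b hb using fun x => (hU (j x)) x (hj x)
  obtain ⟨C, h1, h2⟩ := lin b
  refine ⟨j '' C, h1.image j, fun z _ => ?_⟩
  obtain ⟨x, hx, hz⟩ := h2 z
  exact mem_biUnion (mem_image_of_mem _ hx) (hb x hz)

theorem zd_P : ZeroDim P := fun U hU x hx =>
  let ⟨α, h⟩ := hU x hx; ⟨N x α, clopen_N x α, mem_N x α, h⟩

theorem mk_P_le : #P ≤ ℵ₁ := by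
  -- the points without finite support are ladders
  have h1 : #({x : P | ¬ {k | x.1 k ≠ ⊤}.Finite}) ≤ ℵ₁ := by
    have : {x : P | ¬ {k | x.1 k ≠ ⊤}.Finite} ⊆ range pt := by
      intro x hx
      rcases x.2 with h | ⟨γ, h⟩
      · exact absurd h hx
      · exact ⟨γ, Subtype.ext h.symm⟩
    exact (mk_le_mk_of_subset this).trans (mk_range_le.trans mk_W1.le)
  have h2 : #({x : P | {k | x.1 k ≠ ⊤}.Finite}) ≤ ℵ₁ := by
    have hsub : {x : P | {k | x.1 k ≠ ⊤}.Finite} ⊆
        ⋃ β : W1, {x : P | {k | x.1 k ≠ ⊤}.Finite ∧ ∀ k, x.1 k ≠ ⊤ → x.1 k ≤ β} := by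
      intro x hx
      have hc : {a : W1 | ∃ k, x.1 k = a}.Countable := by
        refine (countable_iUnion (fun k : ℕ => (Set.Subsingleton.countable
          (s := {a : W1 | x.1 k = a}) fun a e b e' =>
            WithTop.coe_eq_coe.1 (Eq.trans (Eq.symm e) e')))).mono ?_
        rintro a ⟨k, hk⟩
        exact mem_iUnion.2 ⟨k, hk⟩
      obtain ⟨b, hb⟩ := W1_bdd hc
      refine mem_iUnion.2 ⟨b, hx, fun k hk => ?_⟩
      obtain ⟨a, ha⟩ := WithTop.ne_top_iff_exists.1 hk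
      rw [← ha]
      exact WithTop.coe_le_coe.2 (hb a ⟨k, ha.symm⟩).le
    refine (mk_le_mk_of_subset hsub).trans ((mk_iUnion_le _).trans ?_)
    refine mul_le_of_le aleph0_lt_aleph_one.le mk_W1.le (ciSup_le' fun β => ?_)
    exact ((countable_iff_lt_aleph_one _).1 (cnt β)).le
  have h3 : #P ≤ #({x : P | {k | x.1 k ≠ ⊤}.Finite}) + #({x : P | ¬ {k | x.1 k ≠ ⊤}.Finite}) := by
    have := mk_union_le {x : P | {k | x.1 k ≠ ⊤}.Finite} {x : P | ¬ {k | x.1 k ≠ ⊤}.Finite}
    have e : {x : P | {k | x.1 k ≠ ⊤}.Finite} ∪ {x : P | ¬ {k | x.1 k ≠ ⊤}.Finite} = Set.univ :=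
      Set.eq_univ_of_forall fun x => em _
    rwa [e, mk_univ] at this
  exact h3.trans (add_le_of_le aleph0_lt_aleph_one.le h2 h1)

theorem no_P : ¬ BobWinsM P := by
  rintro ⟨σ, hσ⟩
  let cov : (P → W1) → Set (Set P) := fun g => range fun x => N x (g x)
  have H := fun f : ℕ → P → W1 => hσ (fun n => cov (f n))
    fun n => ⟨forall_mem_range.2 fun x => (clopen_N _ _).2,
      eq_univ_of_forall fun x => ⟨_, ⟨x, rfl⟩, mem_N _ _⟩⟩
  have : Nonempty P := ⟨pt (Classical.arbitrary _)⟩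
  obtain ⟨f, z, hz⟩ := no_win (fun f n => Function.invFun (fun x => N x (f n x)) ''
    σ n (fun i => cov (f i))) (fun f g n h => by
      have e : (fun i : Fin (n + 1) => cov (f i)) = fun i : Fin (n + 1) => cov (g i) :=
        funext fun i => congrArg cov (h i (Nat.lt_succ_iff.1 i.2))
      rw [h n le_rfl, e])
    fun f n => ((H f).1 n).1.image _
  obtain ⟨U, e1, e2⟩ := (H f).2.symm.subset (mem_univ z)
  obtain ⟨n, e3⟩ := mem_iUnion.1 e1
  exact hz n _ ⟨U, e3, rfl⟩ ((Function.invFun_eq (((H f).1 n).2 e3)).symm.subset e2)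

theorem exists_space (K : Type) (hK : ℵ₁ ≤ #K) : ∃ (X : Type) (_ : TopologicalSpace X),
    #X = #K ∧ T2Space X ∧ ZeroDim X ∧ LindelofSpace X ∧ PSp X ∧ Menger X ∧ BobWinsP X ∧
      ¬ BobWinsM X := by
  refine ⟨P ⊕ OL K, inferInstance, ?_, inferInstance, zd_sum zd_P (zd_OL K), inferInstance,
    psp_sum psp_P (psp_OL K), menger (psp_sum psp_P (psp_OL K)), bobWinsP (psp_sum psp_P (psp_OL K)),
    fun h => no_P (bobWinsM_of_closed IsClosedEmbedding.inl h)⟩
  rw [mk_sum, lift_id, lift_id, mk_OL]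
  have h0 : ℵ₀ ≤ #K := aleph0_lt_aleph_one.le.trans hK
  rw [add_one_eq h0]
  exact add_eq_right h0 (mk_P_le.trans hK)

end Pool.Agent.KS6_21.PONG
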